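import Mathlib
import Pool.Agent.H.MP_051ecf_co.A

set_option autoImplicit false
open Finset

namespace Pool.Agent.H.MP_c23581_co.A
open Pool.Agent.Lib.helper1.Flip Pool.Agent.Lib.helper1.Mask Pool.Agent.Lib.helper1.Hom

variable {N n : ℕ}

def S (N n : ℕ) : Finset (Fin N) := univ.filter fun i => n ≤ i.val

def J (N n : ℕ) (l : List ℕ) (σ : Finset (Fin N)) : Prop := Cx N l (σ \ S N n)

theorem disj {m : ℕ} (h : m < 2 ^ n) : Disjoint (f N m) (S N n) :=
  disjoint_left.2 fun i a b => by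
    rw [mem_f, Nat.testBit_lt_two_pow (h.trans_le (Nat.pow_le_pow_right (by norm_num)
      (mem_filter.1 b).2))] at a
    simp at a

theorem card_S (j : ℕ) : (S (n + j) n).card = j := by
  rw [S, card_filter, Fin.sum_univ_add]
  simp [fun i : Fin n => (Nat.not_le.2 i.2)]

theorem card_f' (j : ℕ) {m : ℕ} (h : m < 2 ^ n) : (f (n + j) m).card = (f n m).card := by
  rw [f, f, card_filter, card_filter, Fin.sum_univ_add]
  simp [fun i : Fin j => Nat.testBit_lt_two_pow (h.trans_le (Nat.pow_le_pow_right (by norm_num)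
    (Nat.le_add_right n i)))]

theorem fl_J {l l' : List ℕ} {A B : ℕ} (hn : n ≤ N) (hA : A < 2 ^ n) (hB : B < 2 ^ n)
    (h : okFl n l l' A B = true) : Fl (J N n l) (J N n l') (f N A) (f N B) := by
  have p := Nat.pow_le_pow_right (n := 2) (by norm_num) hn
  have k : Fl (Cx N l) (Cx N l') (f N A) (f N B) := ok_fl (by omega) (by omega) (by
    simp only [okFl, List.all_eq_true, Bool.and_eq_true] at h ⊢
    refine fun m x => ⟨(h m x).1, ?_⟩
    have := (h m x).2
    revert this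
    cases sub A m
    · simp
    · simp only [cond_true, List.all_eq_true, List.mem_range]
      intro t a _
      by_cases c : a < n
      · exact t a c
      · simp [Nat.testBit_lt_two_pow (hA.trans_le (Nat.pow_le_pow_right (by norm_num)
          (not_lt.1 c)))])
  refine ⟨fun F a b => k.h1 _ a (subset_sdiff.2 ⟨b, disj hB⟩),
    fun F a b => k.h3 _ a fun c => b (c.trans sdiff_subset), fun F a b x y => ?_⟩
  obtain ⟨m, c, d⟩ := k.h5 _ a (subset_sdiff.2 ⟨b, disj hA⟩) x y
  refine ⟨m, c, fun i hi => d ?_⟩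
  simp only [mem_sdiff, mem_erase, mem_union] at hi ⊢
  tauto

theorem run_J (j d z : ℕ) (hz : z < 2 ^ n) (hd : (f n z).card + j = d + 1)
    (r : List (ℕ × ℕ × List ℕ)) : ∀ l, run n z l r = true →
      Nonempty (Geo (J (n + j) n l) ≃ₜ Metric.closedBall (0 : EuclideanSpace ℝ (Fin d)) 1) := by
  induction r with
  | nil =>
    intro l h
    obtain rfl : l = [z] := by simpa [run] using h
    have c : (f (n + j) z ∪ S (n + j) n).card = d + 1 := by
      rw [card_union_of_disjoint (disj hz), card_f' j hz, card_S, hd]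
    have e := image_orderEmbOfFin_univ _ c
    rw [geo_congr (K' := fun σ => σ = univ.image ((f (n + j) z ∪ S (n + j) n).orderEmbOfFin c))
      (by simp [J, Cx, e, sdiff_le_iff'])
      (by rintro _ rfl; exact ⟨_, ⟨z, by simp, by rw [e]; exact sdiff_le_iff'.2 le_rfl⟩, subset_rfl⟩)]
    exact ball d _ (RelEmbedding.injective _)
  | cons p r ih =>
    intro l h
    simp only [run, Bool.and_eq_true, decide_eq_true_eq] at h
    obtain ⟨⟨⟨⟨a, b, c, d, e⟩, h1⟩, h2⟩, h3⟩ := h
    obtain ⟨φ⟩ := ih _ h3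
    have p := Nat.pow_le_pow_right (n := 2) (by norm_num) (Nat.le_add_right n j)
    obtain ⟨ψ⟩ := flip (f_ne (by omega) c) (f_ne (by omega) d) (by
      rw [disjoint_iff_inter_eq_empty, ← f_and, e]
      ext
      simp [mem_f]) (fl_J (Nat.le_add_right n j) a b h1) (fl_J (Nat.le_add_right n j) b a h2)
    exact ⟨ψ.trans φ⟩

theorem ok_mono (hn : n ≤ N) (t : T) : ∀ l, ok n t l = true → ok N t l = true := by
  induction t with
  | leaf v =>
    intro l h
    simp only [ok, Bool.and_eq_true, decide_eq_true_eq] at h ⊢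
    exact ⟨by omega, h.2⟩
  | node v a b i j =>
    intro l h
    simp only [ok, Bool.and_eq_true, decide_eq_true_eq] at h ⊢
    exact ⟨⟨by omega, i _ h.1.2⟩, j _ h.2⟩

open Pool.Agent.H.MP_051ecf_co.A

theorem g1 : (∀ m ∈ fac, m < 2 ^ 9) ∧ fac.Nodup ∧ fac.length = 21 ∧
    (∀ v < 9, ∃ m ∈ fac, m.testBit v = true) ∧ ∀ a < 9, ∀ b < 9, a ≠ b → ∃ v < 9, ∀ m ∈ fac,
      ¬ (m.testBit v = true ∧ m.testBit a = true ∧ m.testBit b = true) := by decide +kernel

theorem mem_J {l : List ℕ} {σ : Finset (Fin N)} : J N n l σ ↔ ∃ m ∈ l, σ ⊆ f N m ∪ S N n := by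
  simp [J, Cx, sdiff_le_iff']

theorem card_top (j : ℕ) {m : ℕ} (h : m ∈ fac) : (f (9 + j) m ∪ S (9 + j) 9).card = 4 + j := by
  rw [card_union_of_disjoint (disj (g1.1 m h)), card_f' j (g1.1 m h), card_S, h4.1 m h]

theorem acyc (j : ℕ) (k : Type) [Field k] (σ : Finset (Fin (9 + j))) (h : σ.card < 2 + j)
    : Acyc k fun τ => J _ 9 fac (τ ∪ σ) ∧ τ ∩ σ = ∅ := by
  by_cases c : S (9 + j) 9 ⊆ σ
  · have e : ∀ τ, (J _ 9 fac (τ ∪ σ) ∧ τ ∩ σ = ∅) ↔
        (Cx _ fac (τ ∪ σ \ S (9 + j) 9) ∧ Disjoint τ (σ \ S (9 + j) 9)) := by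
      intro τ
      rw [← disjoint_iff_inter_eq_empty]
      constructor
      · rintro ⟨a, b⟩
        rw [J, union_sdiff_distrib, sdiff_eq_self_of_disjoint (b.mono_right c)] at a
        exact ⟨a, b.mono_right sdiff_subset⟩
      · rintro ⟨⟨m, a, b⟩, d⟩
        have := (disj (N := 9 + j) (g1.1 m a)).mono_left (subset_union_left.trans b)
        exact ⟨⟨m, a, by rwa [union_sdiff_distrib, sdiff_eq_self_of_disjoint this]⟩,
          by rw [← sdiff_union_of_subset c]; exact disjoint_union_right.2 ⟨d, this⟩⟩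
    simp only [e]
    have := card_sdiff_add_card_eq_card c
    rw [card_S] at this
    rcases (σ \ S (9 + j) 9).eq_empty_or_nonempty with e | ⟨v, e⟩
    · simpa [e] using ok_acyc (k := k) _ _ (ok_mono (Nat.le_add_right 9 j) _ _ h2.1)
    · have lt : v.val < 9 := by simpa [S] using (mem_sdiff.1 e).2
      have := ok_acyc (k := k) _ _ (ok_mono (Nat.le_add_right 9 j) _ _ (h2.2 ⟨v, lt⟩))
      rw [cx_lk] at this
      rw [eq_singleton_iff_unique_mem.2 ⟨e, fun x hx => card_le_one.1 (by omega) x hx v e⟩]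
      simpa using this
  · obtain ⟨s, a, b⟩ := not_subset.1 c
    refine acyc_cone s fun F ⟨x, y⟩ => ⟨?_, by rw [insert_inter_of_notMem b, y]⟩
    rwa [J, insert_union, insert_sdiff_of_mem _ a]

theorem none (j : ℕ) (D : Finset (Finset (Fin (9 + j)) × Finset (Fin (9 + j))))
    (a1 : ∀ p ∈ D, p.1 ⊆ p.2 ∧ J _ 9 fac p.2 ∧ p.2.card = p.1.card + (2 + j))
    (a2 : ∀ σ, J _ 9 fac σ → ∃! p, p ∈ D ∧ p.1 ⊆ σ ∧ σ ⊆ p.2)
    (a3 : ∀ p ∈ D, ∀ τ ⊆ p.1, ∃ q ∈ D, q.1 = τ) : False := by
  simp only [mem_J] at a1 a2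
  have un : ∀ p ∈ D, ∀ q ∈ D, ∀ σ, p.1 ⊆ σ → σ ⊆ p.2 → q.1 ⊆ σ → σ ⊆ q.2 → p = q := by
    intro p x q y σ a b c d
    obtain ⟨m, e, g⟩ := (a1 p x).2.1
    exact (a2 σ ⟨m, e, b.trans g⟩).unique ⟨x, a, b⟩ ⟨y, c, d⟩
  obtain ⟨p0, ⟨x0, e0, -⟩, -⟩ := a2 ∅ ⟨53, by decide, empty_subset _⟩
  rw [subset_empty] at e0
  have e : p0.2.card = 2 + j := by simpa [e0] using (a1 p0 x0).2.2
  have nb : ∀ q ∈ D, q.1 ⊆ univ \ p0.2 := fun q x w y => mem_sdiff.2 ⟨mem_univ _, fun z => by
    obtain ⟨r, c, d⟩ := a3 q x {w} (by simpa using y)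
    have := un r c p0 x0 {w} d.le (d ▸ (a1 r c).1) (by simp [e0]) (by simpa using z)
    simp [this, e0] at d⟩
  have c1 : 21 ≤ (D.filter fun p => p.1.card = 2).card := by
    have pw := Nat.pow_le_pow_right (n := 2) (by norm_num) (Nat.le_add_right 9 j)
    rw [← g1.2.2.1, ← List.toFinset_card_of_nodup g1.2.1, ← card_image_of_injOn
      (f := fun m => f (9 + j) m ∪ S (9 + j) 9) fun a x b y z => by
        have x := g1.1 a (by simpa using x)
        have y := g1.1 b (by simpa using y)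
        refine f_inj (n := 9 + j) (by omega) (by omega) ?_
        rw [← union_sdiff_cancel_right (disj x), ← union_sdiff_cancel_right (disj y)]
        exact congrArg (· \ _) z]
    refine card_le_card_of_surjOn Prod.snd fun σ x => ?_
    obtain ⟨m, y, rfl⟩ := mem_image.1 x
    rw [List.mem_toFinset] at y
    obtain ⟨p, ⟨x, -, s⟩, -⟩ := a2 _ ⟨m, y, subset_rfl⟩
    obtain ⟨-, ⟨m', y', t⟩, u⟩ := a1 p x
    have := card_le_card t
    have := card_le_card s
    have := card_top j y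
    have := card_top j y'
    exact ⟨p, by simpa [x] using (by omega : p.1.card = 2),
      (eq_of_subset_of_card_le s (by omega)).symm⟩
  have c2 : (D.filter fun p => p.1.card = 2).image Prod.fst = powersetCard 2 (univ \ p0.2) := by
    refine eq_of_subset_of_card_le (fun σ x => ?_) ?_
    · obtain ⟨p, y, rfl⟩ := mem_image.1 x
      exact mem_powersetCard.2 ⟨nb p (mem_filter.1 y).1, (mem_filter.1 y).2⟩
    · rw [card_image_of_injOn fun p x q y z => un p (mem_filter.1 x).1 q (mem_filter.1 y).1 _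
        subset_rfl (a1 p (mem_filter.1 x).1).1 z.ge (z ▸ (a1 q (mem_filter.1 y).1).1),
        card_powersetCard, card_univ_sdiff, e, Fintype.card_fin,
        show 9 + j - (2 + j) = 7 by omega]
      exact c1
  have key : ∀ v, ∃ m ∈ fac, insert v p0.2 ⊆ f (9 + j) m ∪ S (9 + j) 9 := by
    intro v
    by_cases hv : v ∈ p0.2
    · rw [insert_eq_of_mem hv]
      exact (a1 p0 x0).2.1
    obtain ⟨p, ⟨x, s, t⟩, -⟩ := a2 {v} (by
      by_cases c : v.val < 9
      · obtain ⟨m, a, b⟩ := g1.2.2.2.1 v c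
        exact ⟨m, a, by simp [mem_f, b]⟩
      · exact ⟨53, by decide, by simp [S, not_lt.1 c]⟩)
    have e1 : p.1 = {v} := (subset_singleton_iff.1 s).resolve_left fun y => by
      have := un p x p0 x0 ∅ y.le (empty_subset _) e0.le (empty_subset _)
      simp [this, hv] at t
    have e2 : p.2 ⊆ insert v p0.2 := fun w y => by
      by_contra z
      simp only [mem_insert, not_or] at z
      obtain ⟨q, c, d⟩ := mem_image.1 (c2.ge (mem_powersetCard.2 ⟨show {v, w} ⊆ univ \ p0.2 by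
        simp [insert_subset_iff, hv, z], card_pair (Ne.symm z.1)⟩))
      have c := mem_filter.1 c
      have := un p x q c.1 {v, w} (by simp [e1])
        (insert_subset (by simpa using t) (by simpa using y)) d.le (d ▸ (a1 q c.1).1)
      simp [← this, e1] at c
    have := (a1 p x).2
    rw [eq_of_subset_of_card_le e2 (by
      rw [this.2, e1, card_insert_of_notMem hv, e, card_singleton]; omega)] at this
    exact this.1
  have := le_card_sdiff (S (9 + j) 9) p0.2
  rw [card_S, e] at this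
  obtain ⟨a, x, b, y, ne⟩ := one_lt_card.1 (show 1 < (p0.2 \ S (9 + j) 9).card by omega)
  simp only [mem_sdiff, S, mem_filter, mem_univ, true_and, not_le] at x y
  obtain ⟨v, v1, v2⟩ := g1.2.2.2.2 a x.2 b y.2 fun z => ne (Fin.ext z)
  obtain ⟨m, c, d⟩ := key ⟨v, by omega⟩
  have k : ∀ w ∈ insert (⟨v, by omega⟩ : Fin (9 + j)) p0.2, w.val < 9 → m.testBit w = true :=
    fun w a b => by simpa [mem_f, S, not_le.2 b] using d a
  exact v2 m c ⟨k _ (mem_insert_self _ _) v1, k a (mem_insert_of_mem x.1) x.2,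
    k b (mem_insert_of_mem y.1) y.2⟩

end Pool.Agent.H.MP_c23581_co.A
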